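import Pool.Agent.H361R2.PP.Asm4
import Pool.Agent.H361R2.PP.Asm5

/-!
# The tug-of-war score of the prime gaps is unbounded

For every `r` the score rises by `r` in `r` steps from a positive proportion of the places, and falls
by `r` in `r` steps from a positive proportion of the places.  So for every `M` a positive proportion
of the `n` have `|a(n)| ≥ M`.  In particular, if `a` is bounded from below then `a(n) ≥ M` for a
positive proportion of the `n`, for every `M`; if `a` is bounded from above then `a(n) ≤ -M` for a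
positive proportion of the `n`.
-/

set_option autoImplicit false

namespace Pool.Agent.Results.MP_7478b2_nt.ScoreUnbounded

open Finset

/-- the `k`-th gap, `k ≥ 1`; the primes are indexed from `0` -/
noncomputable def g (k : ℕ) : ℤ := (Nat.nth Nat.Prime k : ℤ) - Nat.nth Nat.Prime (k - 1)

/-- the score -/
noncomputable def a (n : ℕ) : ℤ := ∑ k ∈ Icc 2 n, Int.sign (g k - g (k - 1))

/-- the set `B` has positive lower density -/
def PosLower (B : Set ℕ) : Prop :=
  ∃ c : ℝ, 0 < c ∧ ∃ N₀ : ℕ, ∀ N : ℕ, N₀ ≤ N → c * N ≤ ({n : ℕ | n ∈ B ∧ n ≤ N}.ncard : ℝ)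

theorem step (n : ℕ) (hn : 1 ≤ n) : a (n + 1) = a n + Int.sign (g (n + 1) - g n) := by
  unfold a
  rw [Finset.sum_Icc_succ_top (by omega)]
  simp

theorem run_up (j r : ℕ) (h : ∀ i < r, g (j + i + 1) < g (j + i + 2)) :
    a (j + 1 + r) = a (j + 1) + r := by
  induction r with
  | zero => simp
  | succ r ih =>
    have h1 := ih fun i hi => h i (by omega)
    have h2 := h r (by omega)
    have h3 := step (j + 1 + r) (by omega)
    have e1 : j + 1 + r = j + r + 1 := by omega
    have e2 : j + 1 + (r + 1) = j + 1 + r + 1 := by omega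
    rw [e2, h3, h1]
    have h4 : Int.sign (g (j + 1 + r + 1) - g (j + 1 + r)) = 1 := by
      apply Int.sign_eq_one_of_pos
      rw [e1]
      linarith
    rw [h4]
    push_cast
    ring

theorem run_down (j r : ℕ) (h : ∀ i < r, g (j + i + 2) < g (j + i + 1)) :
    a (j + 1 + r) = a (j + 1) - r := by
  induction r with
  | zero => simp
  | succ r ih =>
    have h1 := ih fun i hi => h i (by omega)
    have h2 := h r (by omega)
    have h3 := step (j + 1 + r) (by omega)
    have e1 : j + 1 + r = j + r + 1 := by omega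
    have e2 : j + 1 + (r + 1) = j + 1 + r + 1 := by omega
    rw [e2, h3, h1]
    have h4 : Int.sign (g (j + 1 + r + 1) - g (j + 1 + r)) = -1 := by
      apply Int.sign_eq_neg_one_of_neg
      rw [e1]
      linarith
    rw [h4]
    push_cast
    ring

theorem g_pos (k : ℕ) : 0 < g (k + 1) := by
  unfold g
  have h := Nat.nth_strictMono Nat.infinite_setOfPred_prime (Nat.lt_succ_self k)
  have h1 : (Nat.nth Nat.Prime k : ℤ) < Nat.nth Nat.Prime (k + 1) := by exact_mod_cast h
  rw [Nat.add_sub_cancel]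
  linarith

/-- shift by one -/
theorem shift (S : ℕ → Prop) [DecidablePred S] (B : Set ℕ) (hSB : ∀ j, S j → j + 1 ∈ B)
    {c : ℝ} (hc : 0 < c) {N₀ : ℕ}
    (h : ∀ N : ℕ, N₀ ≤ N → c * N ≤ (((range N).filter S).card : ℝ)) : PosLower B := by
  classical
  refine ⟨c, hc, N₀, fun N hN => (h N hN).trans ?_⟩
  have h1 : (((range N).filter S).image (fun j => j + 1)).card = ((range N).filter S).card :=
    card_image_of_injective _ fun x y hxy => by simpa using hxy
  have h2 : (((range N).filter S).image (fun j => j + 1)).card ≤ {n : ℕ | n ∈ B ∧ n ≤ N}.ncard := by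
    rw [← Set.ncard_coe_finset]
    apply Set.ncard_le_ncard
    · intro y hy
      rw [coe_image, Set.mem_image] at hy
      obtain ⟨j, hj, rfl⟩ := hy
      rw [mem_coe, mem_filter, mem_range] at hj
      exact ⟨hSB j hj.2, by omega⟩
    · exact (Set.finite_Iic N).subset fun n hn => hn.2
  rw [h1] at h2
  exact_mod_cast h2

open Classical in
theorem up (r : ℕ) : PosLower {n : ℕ | a (n + r) = a n + r} := by
  obtain ⟨c, hc, N₀, h⟩ := Pool.Agent.H361R2.PP.runInc 2 r
  refine shift _ _ (fun j hj => ?_) hc h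
  apply run_up
  intro i hi
  have h1 := hj.2 i hi
  unfold Pool.Agent.H361R2.PP.P at h1
  have h2 : 2 * g (j + i + 1) ≤ g (j + i + 2) := by
    unfold g
    have e1 : j + i + 1 - 1 = j + i := by omega
    have e2 : j + i + 2 - 1 = j + i + 1 := by omega
    rw [e1, e2]
    exact_mod_cast h1
  have h3 := g_pos (j + i)
  linarith

open Classical in
theorem down (r : ℕ) : PosLower {n : ℕ | a (n + r) = a n - r} := by
  obtain ⟨c, hc, N₀, h⟩ := Pool.Agent.H361R2.PP.runDec 2 r
  refine shift _ _ (fun j hj => ?_) hc h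
  apply run_down
  intro i hi
  have h1 := hj.2 i hi
  unfold Pool.Agent.H361R2.PP.P at h1
  have h2 : 2 * g (j + i + 2) ≤ g (j + i + 1) := by
    unfold g
    have e1 : j + i + 1 - 1 = j + i := by omega
    have e2 : j + i + 2 - 1 = j + i + 1 := by omega
    rw [e1, e2]
    exact_mod_cast h1
  have h3 : 0 < g (j + i + 2) := g_pos (j + i + 1)
  linarith

theorem large (M : ℕ) : PosLower {n : ℕ | (M : ℤ) ≤ |a n|} := by
  classical
  obtain ⟨c, hc, N₀, h⟩ := up (2 * M)
  refine ⟨c / 4, by positivity, N₀ + 4 * M, fun N hN => ?_⟩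
  have h1 := h (N - 2 * M) (by omega)
  have hfin : {n : ℕ | n ∈ {n : ℕ | a (n + 2 * M) = a n + (2 * M : ℕ)} ∧ n ≤ N - 2 * M}.Finite :=
    (Set.finite_Iic (N - 2 * M)).subset fun n hn => hn.2
  obtain ⟨F, hF⟩ : ∃ F : Finset ℕ, F = hfin.toFinset := ⟨_, rfl⟩
  have hFc : {n : ℕ | n ∈ {n : ℕ | a (n + 2 * M) = a n + (2 * M : ℕ)} ∧ n ≤ N - 2 * M}.ncard =
      F.card := by rw [hF, Set.ncard_eq_toFinset_card _ hfin]
  rw [hFc] at h1
  have hFm : ∀ n ∈ F, a (n + 2 * M) = a n + (2 * M : ℕ) ∧ n ≤ N - 2 * M := by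
    intro n hn
    rw [hF, Set.Finite.mem_toFinset] at hn
    exact hn
  have h2 : F.card ≤ 2 * (F.image (fun n => if (M : ℤ) ≤ |a n| then n else n + 2 * M)).card := by
    apply card_le_mul_card_image
    intro y _
    have h3 : F.filter (fun n => (if (M : ℤ) ≤ |a n| then n else n + 2 * M) = y) ⊆
        {y, y - 2 * M} := by
      intro n hn
      rw [mem_filter] at hn
      rw [mem_insert, mem_singleton]
      have := hn.2
      split_ifs at this <;> omega
    exact (card_le_card h3).trans card_le_two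
  have h4 : (F.image (fun n => if (M : ℤ) ≤ |a n| then n else n + 2 * M)).card ≤
      {n : ℕ | n ∈ {n : ℕ | (M : ℤ) ≤ |a n|} ∧ n ≤ N}.ncard := by
    rw [← Set.ncard_coe_finset]
    apply Set.ncard_le_ncard
    · intro y hy
      rw [coe_image, Set.mem_image] at hy
      obtain ⟨n, hn, rfl⟩ := hy
      obtain ⟨g1, g2⟩ := hFm n (mem_coe.1 hn)
      show (M : ℤ) ≤ |a (if (M : ℤ) ≤ |a n| then n else n + 2 * M)| ∧
        (if (M : ℤ) ≤ |a n| then n else n + 2 * M) ≤ N
      by_cases hM : (M : ℤ) ≤ |a n|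
      · rw [if_pos hM]
        exact ⟨hM, by omega⟩
      · rw [if_neg hM]
        refine ⟨?_, by omega⟩
        push Not at hM
        rw [g1]
        push_cast
        have h5 := (abs_lt.1 hM).1
        refine le_trans ?_ (le_abs_self _)
        linarith
    · exact (Set.finite_Iic N).subset fun n hn => hn.2
  have h5 : (F.card : ℝ) ≤ 2 * ({n : ℕ | n ∈ {n : ℕ | (M : ℤ) ≤ |a n|} ∧ n ≤ N}.ncard : ℝ) := by
    exact_mod_cast h2.trans (Nat.mul_le_mul_left 2 h4)
  have h6 : ((N - 2 * M : ℕ) : ℝ) = N - 2 * M := by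
    rw [Nat.cast_sub (by omega)]
    push_cast
    ring
  rw [h6] at h1
  have h7 : (4 : ℝ) * M ≤ N := by exact_mod_cast (by omega : 4 * M ≤ N)
  nlinarith

theorem PosLower.mono {B B' : Set ℕ} (h : PosLower B) (hB : B ⊆ B') : PosLower B' := by
  obtain ⟨c, hc, N₀, h1⟩ := h
  refine ⟨c, hc, N₀, fun N hN => (h1 N hN).trans ?_⟩
  have h2 : {n : ℕ | n ∈ B ∧ n ≤ N}.ncard ≤ {n : ℕ | n ∈ B' ∧ n ≤ N}.ncard := by
    apply Set.ncard_le_ncard
    · intro n hn
      exact ⟨hB hn.1, hn.2⟩
    · exact (Set.finite_Iic N).subset fun n hn => hn.2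
  exact_mod_cast h2

/-- (1) For every `r` the sets of the `n` with `a(n + r) = a(n) + r` and with `a(n + r) = a(n) - r` have
positive lower density.
(2) For every `M` the set of the `n` with `|a(n)| ≥ M` has positive lower density.
(3) If `a` is bounded from below then, for every `M`, the set of the `n` with `a(n) ≥ M` has positive
lower density.
(4) If `a` is bounded from above then, for every `M`, the set of the `n` with `a(n) ≤ -M` has positive
lower density. -/
theorem result :
    (∀ r : ℕ, PosLower {n : ℕ | a (n + r) = a n + r} ∧ PosLower {n : ℕ | a (n + r) = a n - r}) ∧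
    (∀ M : ℕ, PosLower {n : ℕ | (M : ℤ) ≤ |a n|}) ∧
    ((∃ B : ℤ, ∀ n : ℕ, B ≤ a n) → ∀ M : ℕ, PosLower {n : ℕ | (M : ℤ) ≤ a n}) ∧
    ((∃ B : ℤ, ∀ n : ℕ, a n ≤ B) → ∀ M : ℕ, PosLower {n : ℕ | a n ≤ -(M : ℤ)}) := by
  refine ⟨fun r => ⟨up r, down r⟩, large, ?_, ?_⟩
  · rintro ⟨B, hB⟩ M
    refine (large (M + B.natAbs + 1)).mono fun n hn => ?_
    have h1 : ((M + B.natAbs + 1 : ℕ) : ℤ) ≤ |a n| := hn
    have h2 := hB n
    show (M : ℤ) ≤ a n
    rcases abs_cases (a n) with h | h <;> omega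
  · rintro ⟨B, hB⟩ M
    refine (large (M + B.natAbs + 1)).mono fun n hn => ?_
    have h1 : ((M + B.natAbs + 1 : ℕ) : ℤ) ≤ |a n| := hn
    have h2 := hB n
    show a n ≤ -(M : ℤ)
    rcases abs_cases (a n) with h | h <;> omega

end Pool.Agent.Results.MP_7478b2_nt.ScoreUnbounded
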